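import Pool.Agent.Helper399_SL.Final

/-!
# Links which are not separated by finite type invariants of links

Two links which are not separated by any finite type invariant of links are, for every `n`, not
separated by type `n` invariants of string links (`L ≈ₙ L'`). This answers the question
affirmatively. It is enough to consider invariants with values in the fields `ZMod p`.

Links are presented as closed braids (with `M` strands, for any `M`) up to the moves of Markov, and
singular links as closures of singular braids: by the theorems of Alexander and Markov, and by the
theorem of Alexander for singular links (Birman), these are all the oriented links with `m` numbered
components up to isotopy and all their singular versions, so that `LinkType` is the usual notion.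
A string link is presented as a braid with `M ≥ m` strands of which the strands `m, ..., M - 1` are
closed up, and the moves for string links are isotopies relative to the boundary. (If there were
further isotopies which do not follow from these moves, then the invariants of string links would be
more numerous here than they are in topology, and the relation `Approx n` would only be stronger: so
for the topological statement only the soundness of these moves is needed.)

The proof: the values of the universal invariant of type `n` of string links form a finitely
generated abelian group `V`; two string links have the same closure only if their values lie in one
orbit of a group `G` of unipotent automorphisms of `V`, and conversely string links in one orbit have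
closures which are related by `≈ₙ`. Orbits of `G` are separated by the quotients `V / p ^ k V`, and
functions on these finite `p`-groups with values in `ZMod p` give invariants of finite type (of
larger type).
-/

set_option autoImplicit false

namespace Pool.Agent.Results.MP_5b16f0_gt.FiniteTypeLinks

open Pool.Agent.Helper399_SL

/-- For links `L`, `L'` with `m` numbered components the following are equivalent: (1) no finite type
link invariant with values in an abelian group separates `L` and `L'`; (2) no finite type link
invariant with values in a prime field `ZMod p` separates them; (3) `L ≈ₙ L'` for every `n`. -/
theorem result (m : ℕ) (L L' : Link m) : List.TFAE [
    ∀ (A : Type) [AddCommGroup A] (v : Link m → A) (k : ℕ), LinkType k v → v L = v L',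
    ∀ (p : ℕ) [Fact p.Prime] (v : Link m → ZMod p) (k : ℕ), LinkType k v → v L = v L',
    ∀ n : ℕ, Approx n L L'] := by
  tfae_have 1 → 2 := fun h p _ v k hv => h (ZMod p) v k hv
  tfae_have 2 → 3 := fun h n => approx_of_forall h n
  tfae_have 3 → 1 := fun h A _ v k hv => eq_of_approx (h k) v hv
  tfae_finish

end Pool.Agent.Results.MP_5b16f0_gt.FiniteTypeLinks
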